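import Pool.Agent.Helper54.CG.Goals

/-! Packet CG-N: the four conditions along the line `a = 3c`. -/

namespace Pool.Agent.Helper36.CG.N

open MvPolynomial Pool.Agent.Helper16.Cusp Pool.Agent.Helper54.CG

theorem eval_pull (F : R) (v : V) : eval v (Pool.Agent.Helper54.CG.pull F) = eval (Pool.Agent.Helper54.CG.phi v) F := by
  unfold Pool.Agent.Helper54.CG.pull Pool.Agent.Helper54.CG.phi
  induction F using MvPolynomial.induction_on with
  | C a => simp
  | add p q hp hq => simp only [map_add, hp, hq]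
  | mul_X p i hp => simp only [map_mul, hp, aeval_X, eval_X]

theorem phi_eq (v : V) : Pool.Agent.Helper54.CG.phi v =
    ![v 0 ^ 3 - 36 * v 0 * v 1 + 216 * v 2 ^ 3,
      -27 * v 1 * (v 0 ^ 2 - 4 * v 1) ^ 2 + 972 * v 2 ^ 3 * (v 0 ^ 3 - 4 * v 0 * v 1 + 12 * v 2 ^ 3),
      9 * v 2 * (v 0 ^ 2 - 4 * v 1)] := by
  funext i
  unfold Pool.Agent.Helper54.CG.phi ff
  fin_cases i
  · simp [pA]
  · simp [pB]
  · simp [pC]

theorem phi3 (β C : ℂ) (hC : C = 9 * (9 - 4 * β)) (h0 : C ≠ 0) :
    Pool.Agent.Helper54.CG.phi ![3, β, 1] =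
      wsm C ![3, (-27 * β * (9 - 4 * β) ^ 2 + 972 * (39 - 12 * β)) / C ^ 2, 1] := by
  rw [phi_eq]
  unfold wsm
  funext i
  fin_cases i
  · simp [hC]; ring
  · simp only [Matrix.cons_val_zero, Matrix.cons_val_one, Matrix.cons_val, Fin.mk_one,
      Fin.reduceFinMk, Fin.zero_eta]
    field_simp
    ring
  · simp [hC]; ring

theorem t (h1 : G_CH) (h2 : G_INV) (h3 : G_SC) : G_N := by
  intro F n κ τ hL
  have hh := hL.homog
  -- the value
  have hval : ∀ β : ℂ, 9 - 4 * β ≠ 0 → ∀ β' : ℂ,
      β' * (9 * (9 - 4 * β)) ^ 2 = -27 * β * (9 - 4 * β) ^ 2 + 972 * (39 - 12 * β) →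
      (eval ![3, β, 1] (Pool.Agent.Helper54.CG.pull F) = 0 ↔ eval ![3, β', 1] F = 0) := by
    intro β hβ β' hβ'
    have hC : (9 * (9 - 4 * β) : ℂ) ≠ 0 := mul_ne_zero (by norm_num) hβ
    have hb : (-27 * β * (9 - 4 * β) ^ 2 + 972 * (39 - 12 * β)) / (9 * (9 - 4 * β)) ^ 2 = β' := by
      rw [div_eq_iff (pow_ne_zero 2 hC)]
      exact hβ'.symm
    rw [eval_pull, phi3 β _ rfl hC, hb, (h3 F n _ ![3, β', 1] hh hC).2.2.1]
    constructor
    · intro h
      rcases mul_eq_zero.1 h with h | h
      · exact absurd h (pow_ne_zero n hC)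
      · exact h
    · intro h
      rw [h, mul_zero]
  have hD0 : eval ![3, 9 / 4, 1] (Pool.Agent.Helper54.CG.pull F) ≠ 0 := by
    rw [eval_pull]
    have : Pool.Agent.Helper54.CG.phi ![3, 9 / 4, 1] = wsm 108 ![0, 1, 0] := by
      rw [phi_eq]
      unfold wsm
      funext i
      fin_cases i
      · simp; norm_num
      · simp; norm_num
      · simp; norm_num
    rw [this, (h3 F n _ ![0, 1, 0] hh (by norm_num)).2.2.1]
    exact mul_ne_zero (pow_ne_zero n (by norm_num)) hL.nb
  refine ⟨?_, ?_, ?_, ?_⟩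
  · intro β h0
    by_cases hβ : 9 - 4 * β = 0
    · exfalso
      have : β = 9 / 4 := by
        rw [eq_div_iff (by norm_num : (4 : ℂ) ≠ 0)]
        linear_combination -hβ
      rw [this] at h0
      exact hD0 h0
    have hC : (9 * (9 - 4 * β) : ℂ) ≠ 0 := mul_ne_zero (by norm_num) hβ
    obtain ⟨β', hβ'⟩ : ∃ β' : ℂ,
        β' * (9 * (9 - 4 * β)) ^ 2 = -27 * β * (9 - 4 * β) ^ 2 + 972 * (39 - 12 * β) :=
      ⟨(-27 * β * (9 - 4 * β) ^ 2 + 972 * (39 - 12 * β)) / (9 * (9 - 4 * β)) ^ 2,
        div_mul_cancel₀ _ (pow_ne_zero 2 hC)⟩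
    have hF0 := (hval β hβ β' hβ').1 h0
    by_cases hR : eval ![3, β, 1] pR = 0
    · exfalso
      have hR' : (4 * β - 21) * (4 * β + 15) = 0 := by
        have : eval ![3, β, 1] pR = -27 * ((4 * β - 21) * (4 * β + 15)) := by
          simp [pR]; ring
        rw [this] at hR
        rcases mul_eq_zero.1 hR with h | h
        · norm_num at h
        · exact h
      rcases mul_eq_zero.1 hR' with h | h
      · have hb : β = 21 / 4 := by
          rw [eq_div_iff (by norm_num : (4 : ℂ) ≠ 0)]
          linear_combination h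
        subst hb
        have : β' = -15 / 4 := by
          have h5 : β' * 11664 = -43740 := by
            have h6 := hβ'
            norm_num at h6
            linear_combination h6
          rw [eq_div_iff (by norm_num : (4 : ℂ) ≠ 0)]
          linear_combination h5 / 2916
        rw [this] at hF0
        exact hL.n15 hF0
      · have hb : β = -15 / 4 := by
          rw [eq_div_iff (by norm_num : (4 : ℂ) ≠ 0)]
          linear_combination h
        subst hb
        have : β' = 3 := by
          have h5 : β' * 46656 = 139968 := by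
            have h6 := hβ'
            norm_num at h6
            linear_combination h6
          linear_combination h5 / 46656
        rw [this] at hF0
        exact hL.n3 hF0
    · -- invertible differential
      obtain ⟨i, hi⟩ := (h3 F n _ ![3, β', 1] hh hC).2.2.2 (hL.smooth β' hF0)
      have hb : (-27 * β * (9 - 4 * β) ^ 2 + 972 * (39 - 12 * β)) / (9 * (9 - 4 * β)) ^ 2 = β' := by
        rw [div_eq_iff (pow_ne_zero 2 hC)]
        exact hβ'.symm
      have hphi : Pool.Agent.Helper54.CG.phi ![3, β, 1] = wsm (9 * (9 - 4 * β)) ![3, β', 1] := by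
        rw [phi3 β _ rfl hC, hb]
      rw [← hphi] at hi
      obtain ⟨u, hu⟩ := h2 ![3, β, 1] hR (Pi.single i 1)
      have hch := h1 F ![3, β, 1] u
      have hu' : (fun i => dd (ff i) ![3, β, 1] u) = Pi.single i 1 := funext hu
      rw [hu'] at hch
      have h7 : dd F (Pool.Agent.Helper54.CG.phi ![3, β, 1]) (Pi.single i 1) =
          eval (Pool.Agent.Helper54.CG.phi ![3, β, 1]) (pderiv i F) := by
        unfold dd
        rw [Finset.sum_eq_single i]
        · simp
        · intro j _ hj
          simp [Pi.single_eq_of_ne hj]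
        · intro h
          exact absurd (Finset.mem_univ i) h
      rw [h7] at hch
      by_contra hcon
      push Not at hcon
      refine hi ?_
      rw [← hch]
      unfold dd
      refine Finset.sum_eq_zero fun j _ => ?_
      rw [hcon j, mul_zero]
  · intro h
    exact hL.n3 ((hval 3 (by norm_num) 3 (by norm_num)).1 h)
  · intro h
    exact hL.n3 ((hval (-15 / 4) (by norm_num) 3 (by norm_num)).1 h)
  · rw [eval_pull]
    obtain ⟨s, hs⟩ := IsAlgClosed.exists_pow_nat_eq (-432 : ℂ) (n := 2) (by norm_num)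
    have hs0 : s ≠ 0 := by
      rintro rfl
      norm_num at hs
    have : Pool.Agent.Helper54.CG.phi ![0, 1, 0] = wsm s ![0, 1, 0] := by
      rw [phi_eq]
      unfold wsm
      funext i
      fin_cases i
      · simp
      · simp [hs]; norm_num
      · simp
    rw [this, (h3 F n _ ![0, 1, 0] hh hs0).2.2.1]
    exact mul_ne_zero (pow_ne_zero n hs0) hL.nb

end Pool.Agent.Helper36.CG.N
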